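import Pool.Graph.R_pool_sql_team_seeded_3997aac3.Q79.CV.C11
import Pool.Agent.H61.CVs.C8

set_option autoImplicit false

open MeasureTheory Set Filter Topology Metric
open scoped ContDiff RealInnerProductSpace ComplexConjugate NNReal

namespace Pool.Agent.H61.CVs

open Pool.Agent.Q61.CV Pool.Agent.Q79.CV

set_option linter.unusedSectionVars false

variable [Sg]

theorem pan_eq {k : ℕ} {y1 s : ℂ} {A : ℝ} (hs : ‖s‖ = 1) :
    Pan k y1 A s = ((A + 2 * (B1 k y1 / s).re + 2 * B2 k * (s ^ 2).re : ℝ) : ℂ) := by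
  have hs0 : s ≠ 0 := by
    intro h
    rw [h, norm_zero] at hs
    exact zero_ne_one hs
  have h1 : conj s = s⁻¹ := by
    rw [Complex.inv_def, Complex.normSq_eq_norm_sq, hs]
    simp
  have h2 : conj (B1 k y1) * s = conj (B1 k y1 / s) := by
    rw [map_div₀, h1, div_inv_eq_mul]
  have h3 : 1 / s ^ 2 = conj (s ^ 2) := by
    rw [map_pow, h1, inv_pow, one_div]
  unfold Pan
  rw [add_assoc (A : ℂ), h2, h3, Complex.add_conj, Complex.add_conj]
  push_cast
  ring

theorem c11 : S_C11 := by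
  intro k y A hk hD ζ hζ
  have hs1 : ‖ζ ^ k‖ = 1 := by rw [norm_pow, hζ, one_pow]
  have hk0 : (k : ℝ) ≠ 0 := by
    exact_mod_cast (by omega : k ≠ 0)
  rw [pan_eq hs1]
  refine ⟨Complex.ofReal_im _, ?_⟩
  rw [Complex.add_re, Complex.ofReal_re]
  have h1 := hD.eq (ζ ^ k) hs1
  have h2 : ‖EE k (Th k y ζ)‖ ^ 2 = Real.exp (-(2 * (Psi y (ζ ^ k)).re / k)) *
      ‖1 + e1 k * se y (ζ ^ k) + e2 k * se y (ζ ^ k) ^ 2‖ ^ 2 := by
    unfold EE
    rw [mul_comm 2 k, pow_mul, th_pow hk, norm_mul, mul_pow]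
    congr 1
    unfold Th
    rw [norm_mul, hζ, one_mul, Complex.norm_exp, Complex.neg_re, Complex.div_natCast_re,
      ← Real.exp_nat_mul]
    congr 1
    push_cast
    ring
  have h3 : (HH k (Th k y ζ)).re = H0 k + 1 / k * (q2 k / 2 * se y (ζ ^ k) ^ 2 +
      q1 k * se y (ζ ^ k) - qm1 k / se y (ζ ^ k) - qm2 k / (2 * se y (ζ ^ k) ^ 2)).re := by
    unfold HH
    rw [mul_comm 2 k, pow_mul, th_pow hk, Complex.add_re, Complex.ofReal_re]
    congr 1
    have : (1 / (k : ℂ)) = ((1 / k : ℝ) : ℂ) := by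
      push_cast
      rfl
    rw [this, Complex.re_ofReal_mul]
  rw [h2, h3]
  linarith

end Pool.Agent.H61.CVs
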