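import Mathlib
import Pool.Graph.R_pool_sql_team_seeded_3997aac3.Q61.CV.Stm
import Pool.Graph.R_pool_sql_team_seeded_3997aac3.Q61.CV.Wie

/-!
# MP_8dfb46_an for every conductivity in `(0, 1/5]`: definitions and statements

The library development `Pool.Graph.R_pool_sql_team_seeded_3997aac3.Q61.CV`, `...Q79.CV` treats
`σ = 1/100`. Here the conductivity is a parameter; the definitions and the lemmas which depend on
it are repeated, all others are used from the library.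
-/

open MeasureTheory Set Filter Topology Metric
open scoped ContDiff RealInnerProductSpace ComplexConjugate NNReal

namespace Pool.Agent.H61.CVs

open Pool.Agent.Q61.CV

/-- The conductivity `σ`, `0 < σ ≤ 1/5`. -/
class Sg where
  v : ℝ
  pos : 0 < v
  le : v ≤ 1 / 5

noncomputable section

variable [Sg]

/-- `σ`. -/
def sg : ℝ := Sg.v

theorem sg_pos : 0 < sg := Sg.pos

theorem sg_le : sg ≤ 1 / 5 := Sg.le

/-- The limit of `k y_1`. -/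
def Y1 : ℝ := 2 / (1 - sg) * (Real.cosh kp + sg * Real.sinh kp)

/-- The solution of the nonlinear equation. -/
structure Dat (k : ℕ) (y : ℕ → ℂ) (A : ℝ) : Prop where
  y0 : y 0 = 0
  summable : Summable fun n => ‖y n - (if n = 1 then (Y1 : ℂ) / k else 0)‖ * 2 ^ n
  close : ∑' n, ‖y n - (if n = 1 then (Y1 : ℂ) / k else 0)‖ * 2 ^ n ≤ 1 / (1000 * k)
  eq : ∀ s : ℂ, ‖s‖ = 1 →
    (1 - sg) * (-(1 / 4 * Real.exp (-(2 * (Psi y s).re / k)) *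
        ‖1 + e1 k * se y s + e2 k * se y s ^ 2‖ ^ 2) + H0 k +
      1 / k * (q2 k / 2 * se y s ^ 2 + q1 k * se y s - qm1 k / se y s -
        qm2 k / (2 * se y s ^ 2)).re) + A + 2 * (B1 k (y 1) / s).re + 2 * B2 k * (s ^ 2).re = 0

/-- C5: bounds for `ψ` and its derivatives. -/
def S_C5 : Prop := ∀ (k : ℕ) (y : ℕ → ℂ) (A : ℝ), 1 ≤ k → Dat k y A →
  psi y 0 = 0 ∧ DifferentiableOn ℂ (psi y) (ball 0 2) ∧ deriv (psi y) 0 = y 1 ∧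
  ∀ s : ℂ, ‖s‖ ≤ 3 / 2 → ‖psi y s - Y1 / k * s‖ ≤ 1 / (1000 * k) ∧
    ‖deriv (psi y) s - Y1 / k‖ ≤ 1 / (1000 * k) ∧ ‖deriv (deriv (psi y)) s‖ ≤ 3 / (1000 * k)

/-- C6: numerical bounds. -/
def S_C6 : Prop := 2 < Y1 ∧ Y1 < 2.57 ∧ 1.8 < 2 * Real.exp (-kp) ∧ 2 * Real.exp (-kp) < 1.82

/-- C8: `Θ` and `E ∘ Θ` are good, and the mapping properties of `Θ`. -/
def S_C8 : Prop := ∀ᶠ k : ℕ in atTop, ∀ (y : ℕ → ℂ) (A : ℝ), Dat k y A →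
  Good (RR k) (Th k y) ∧ Good (RR k) (fun ζ => EE k (Th k y ζ)) ∧ Th k y 0 = 0 ∧
  (∀ ζ : ℂ, ‖ζ‖ ≤ 1 → ‖Th k y ζ‖ < 1) ∧
  ∀ ζ ∈ ball (0 : ℂ) (RR k), Th k y ζ ∈ ball (0 : ℂ) (RR k)

/-- C9: the convexity condition for `E ∘ Θ`. -/
def S_C9 : Prop := ∀ᶠ k : ℕ in atTop, ∀ (y : ℕ → ℂ) (A : ℝ), Dat k y A → ∀ ζ : ℂ, ‖ζ‖ = 1 →
  ‖ζ * deriv (deriv fun ζ => EE k (Th k y ζ)) ζ / deriv (fun ζ => EE k (Th k y ζ)) ζ‖ < 1

/-- C10: the function `h`. -/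
def S_C10 : Prop := ∀ᶠ k : ℕ in atTop, ∀ (y : ℕ → ℂ) (A : ℝ), Dat k y A → ∃ h : ℂ → ℂ,
  (∀ ζ ∈ ball (0 : ℂ) (RR k), DifferentiableAt ℂ h ζ) ∧
  ∀ ζ ∈ ball (0 : ℂ) (RR k), ζ ≠ 0 → h ζ = HH k (Th k y ζ) + Pan k (y 1) A (ζ ^ k)

/-- C11: the conditions on the interface. -/
def S_C11 : Prop := ∀ (k : ℕ) (y : ℕ → ℂ) (A : ℝ), 1 ≤ k → Dat k y A → ∀ ζ : ℂ, ‖ζ‖ = 1 →
  (Pan k (y 1) A (ζ ^ k)).im = 0 ∧
  -(‖EE k (Th k y ζ)‖ ^ 2 / 4) + (HH k (Th k y ζ) + Pan k (y 1) A (ζ ^ k)).re =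
    sg * (-(‖EE k (Th k y ζ)‖ ^ 2 / 4) + (HH k (Th k y ζ)).re)

/-- FP: the nonlinear equation has a solution. -/
def S_FP : Prop := ∀ᶠ k : ℕ in atTop, ∃ (y : ℕ → ℂ) (A : ℝ), Dat k y A


end

end Pool.Agent.H61.CVs
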