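import Pool.Graph.R_pool_sql_team_seeded_3997aac3.Q79.CV.C5
import Pool.Agent.H61.CVs.Stm

set_option autoImplicit false

open MeasureTheory Set Filter Topology Metric
open scoped ContDiff RealInnerProductSpace ComplexConjugate NNReal

namespace Pool.Agent.H61.CVs

open Pool.Agent.Q61.CV Pool.Agent.Q79.CV

set_option linter.unusedSectionVars false

variable [Sg]

/-- absolute convergence inside the disc of radius two -/
def Abs2 (z : ℕ → ℂ) : Prop := ∀ r : ℝ, 0 ≤ r → r < 2 → Summable fun n => ‖z n‖ * r ^ n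

theorem abs2_shift {z : ℕ → ℂ} (hz : Abs2 z) : Abs2 fun n => ((n : ℂ) + 1) * z (n + 1) := by
  intro r hr hr2
  obtain ⟨ρ, hρ1, hρ2⟩ := exists_between hr2
  have hρ0 : 0 < ρ := hr.trans_lt hρ1
  have h1 := (summable_nat_add_iff 1).2 (hz ρ hρ0.le hρ2)
  have hq : r / ρ < 1 := (div_lt_one hρ0).2 hρ1
  have hq0 : 0 ≤ r / ρ := by positivity
  obtain ⟨C, hC⟩ : ∃ C : ℝ, ∀ n : ℕ, ((n : ℝ) + 1) * (r / ρ) ^ n ≤ C := by
    have h2 : Tendsto (fun n : ℕ => ((n : ℝ) + 1) * (r / ρ) ^ n) atTop (𝓝 (0 + 0)) := by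
      have h3 := (tendsto_self_mul_const_pow_of_lt_one hq0 hq).add
        (tendsto_pow_atTop_nhds_zero_of_lt_one hq0 hq)
      refine h3.congr fun n => ?_
      ring
    obtain ⟨C, hC⟩ := h2.bddAbove_range
    exact ⟨C, fun n => hC ⟨n, rfl⟩⟩
  refine Summable.of_nonneg_of_le (fun n => by positivity) (fun n => ?_) (h1.mul_left (C / ρ))
  rw [norm_mul]
  have h4 : ‖(n : ℂ) + 1‖ = (n : ℝ) + 1 := by
    have : ((n : ℂ) + 1) = (((n : ℝ) + 1 : ℝ) : ℂ) := by push_cast; rfl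
    rw [this, Complex.norm_real, Real.norm_of_nonneg (by positivity)]
  rw [h4]
  have h5 : r ^ n = (r / ρ) ^ n * ρ ^ n := by
    rw [← mul_pow, div_mul_cancel₀ _ hρ0.ne']
  calc ((n : ℝ) + 1) * ‖z (n + 1)‖ * r ^ n
      = (((n : ℝ) + 1) * (r / ρ) ^ n) * (‖z (n + 1)‖ * ρ ^ n) := by rw [h5]; ring
    _ ≤ C * (‖z (n + 1)‖ * ρ ^ n) := mul_le_mul_of_nonneg_right (hC n) (by positivity)
    _ = C / ρ * (‖z (n + 1)‖ * ρ ^ (n + 1)) := by
      rw [pow_succ]
      field_simp

theorem abs2_deriv {z : ℕ → ℂ} (hz : Abs2 z) {s : ℂ} (hs : ‖s‖ < 2) :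
    HasDerivAt (psi z) (psi (fun n => ((n : ℂ) + 1) * z (n + 1)) s) s := by
  obtain ⟨r, hr1, hr2⟩ := exists_between hs
  have hr0 : 0 < r := (norm_nonneg s).trans_lt hr1
  have hz' := abs2_shift hz r hr0.le hr2
  -- the terms of index `n + 1`
  have h0 : Summable fun n => z n * s ^ n := by
    refine Summable.of_norm (Summable.of_nonneg_of_le (fun _ => norm_nonneg _) (fun n => ?_)
      (hz r hr0.le hr2))
    rw [norm_mul, norm_pow]
    exact mul_le_mul_of_nonneg_left (pow_le_pow_left₀ (norm_nonneg _) hr1.le n) (norm_nonneg _)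
  have h1 : HasDerivAt (fun y => ∑' n : ℕ, z (n + 1) * y ^ (n + 1))
      (∑' n : ℕ, z (n + 1) * (((n : ℂ) + 1) * s ^ n)) s := by
    refine hasDerivAt_tsum_of_isPreconnected (u := fun n : ℕ => ‖((n : ℂ) + 1) * z (n + 1)‖ * r ^ n)
      hz' isOpen_ball (convex_ball (0 : ℂ) r).isPreconnected
      (g := fun (n : ℕ) (y : ℂ) => z (n + 1) * y ^ (n + 1))
      (g' := fun (n : ℕ) (y : ℂ) => z (n + 1) * (((n : ℂ) + 1) * y ^ n)) ?_ ?_
      (y₀ := 0) (mem_ball_self hr0) ?_ (mem_ball_zero_iff.2 hr1)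
    · intro n y _
      have h2 := (hasDerivAt_pow (n + 1) y).const_mul (z (n + 1))
      simpa using h2
    · intro n y hy
      rw [mem_ball_zero_iff] at hy
      rw [norm_mul, norm_mul, norm_mul, norm_pow]
      have := pow_le_pow_left₀ (norm_nonneg y) hy.le n
      calc ‖z (n + 1)‖ * (‖(n : ℂ) + 1‖ * ‖y‖ ^ n) = ‖(n : ℂ) + 1‖ * ‖z (n + 1)‖ * ‖y‖ ^ n := by
            ring
        _ ≤ _ := mul_le_mul_of_nonneg_left this (by positivity)
    · simp only [ne_eq, Nat.add_eq_zero_iff, one_ne_zero, and_false, not_false_eq_true, zero_pow,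
        mul_zero]
      exact summable_zero
  have h2 : psi z =ᶠ[𝓝 s] fun y => z 0 + ∑' n : ℕ, z (n + 1) * y ^ (n + 1) := by
    filter_upwards [isOpen_ball.mem_nhds (mem_ball_zero_iff.2 hr1)] with y hy
    rw [mem_ball_zero_iff] at hy
    have h3 : Summable fun n => z n * y ^ n := by
      refine Summable.of_norm (Summable.of_nonneg_of_le (fun _ => norm_nonneg _) (fun n => ?_)
        (hz r hr0.le hr2))
      rw [norm_mul, norm_pow]
      exact mul_le_mul_of_nonneg_left (pow_le_pow_left₀ (norm_nonneg _) hy.le n) (norm_nonneg _)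
    unfold psi
    rw [h3.tsum_eq_zero_add, pow_zero, mul_one]
  refine ((h1.const_add (z 0)).congr_of_eventuallyEq h2).congr_deriv ?_
  unfold psi
  refine tsum_congr fun n => ?_
  ring

theorem psi_bound {z : ℕ → ℂ} {u : ℕ → ℝ} (hu : Summable u) {s : ℂ}
    (h : ∀ n, ‖z n‖ * ‖s‖ ^ n ≤ u n) : ‖psi z s‖ ≤ ∑' n, u n := by
  unfold psi
  refine tsum_of_norm_bounded hu.hasSum fun n => ?_
  rw [norm_mul, norm_pow]
  exact h n

theorem num1 (n : ℕ) : ((n : ℝ) + 1) * (3 / 2) ^ n ≤ 2 ^ (n + 1) := by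
  induction n with
  | zero => norm_num
  | succ n ih =>
    rcases Nat.lt_or_ge n 2 with h | h
    · interval_cases n <;> norm_num
    · have h1 : (2 : ℝ) ≤ n := by exact_mod_cast h
      have h2 : (0 : ℝ) < (3 / 2) ^ n := by positivity
      rw [pow_succ, pow_succ (2 : ℝ) (n + 1)]
      push_cast
      nlinarith

theorem num2 (n : ℕ) : ((n : ℝ) + 1) * (n + 2) * (3 / 2) ^ n ≤ 3 * 2 ^ (n + 2) := by
  induction n with
  | zero => norm_num
  | succ n ih =>
    rcases Nat.lt_or_ge n 5 with h | h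
    · interval_cases n <;> norm_num
    · have h1 : (5 : ℝ) ≤ n := by exact_mod_cast h
      have h2 : (0 : ℝ) < (3 / 2) ^ n := by positivity
      rw [pow_succ, show n + 1 + 2 = (n + 2) + 1 by ring, pow_succ (2 : ℝ) (n + 2)]
      push_cast
      have h3 : ((n : ℝ) + 1 + 1) * (n + 1 + 2) * (3 / 2) ≤ 2 * (((n : ℝ) + 1) * (n + 2)) := by
        nlinarith
      have h4 := mul_le_mul_of_nonneg_right h3 h2.le
      nlinarith

theorem c5 : S_C5 := by
  intro k y A hk hD
  have hk0 : (0 : ℝ) < k := by exact_mod_cast hk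
  set c : ℂ := (Y1 : ℂ) / k with hc
  set z : ℕ → ℂ := fun n => y n - (if n = 1 then c else 0) with hz
  have hs2 : Summable fun n => ‖z n‖ * 2 ^ n := hD.summable
  have hM : ∑' n, ‖z n‖ * 2 ^ n ≤ 1 / (1000 * k) := hD.close
  have hzA : Abs2 z := by
    intro r hr hr2
    refine Summable.of_nonneg_of_le (fun _ => by positivity) (fun n => ?_) hs2
    exact mul_le_mul_of_nonneg_left (pow_le_pow_left₀ hr hr2.le n) (norm_nonneg _)
  have hpsi : ∀ s : ℂ, ‖s‖ < 2 → psi y s = c * s + psi z s := by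
    intro s hs
    have h1 : Summable fun n => z n * s ^ n := by
      refine Summable.of_norm (Summable.of_nonneg_of_le (fun _ => norm_nonneg _) (fun n => ?_) hs2)
      rw [norm_mul, norm_pow]
      exact mul_le_mul_of_nonneg_left (pow_le_pow_left₀ (norm_nonneg _) hs.le n) (norm_nonneg _)
    have h2 : HasSum (fun n : ℕ => (if n = 1 then c else 0) * s ^ n) (c * s) := by
      have h3 := hasSum_single (f := fun n : ℕ => (if n = 1 then c else 0) * s ^ n) 1 (by
        intro n hn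
        simp [hn])
      simpa using h3
    have h4 := (h2.add h1.hasSum).tsum_eq
    unfold psi
    rw [← h4]
    refine tsum_congr fun n => ?_
    simp only [hz]
    ring
  have hd1 : ∀ s : ℂ, ‖s‖ < 2 →
      HasDerivAt (psi y) (c + psi (fun n => ((n : ℂ) + 1) * z (n + 1)) s) s := by
    intro s hs
    have h1 := ((hasDerivAt_id s).const_mul c).add (abs2_deriv hzA hs)
    rw [mul_one] at h1
    refine h1.congr_of_eventuallyEq ?_
    filter_upwards [isOpen_ball.mem_nhds (mem_ball_zero_iff.2 hs)] with x hx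
    exact hpsi x (mem_ball_zero_iff.1 hx)
  have hd2 : ∀ s : ℂ, ‖s‖ < 2 → HasDerivAt (deriv (psi y))
      (psi (fun n => ((n : ℂ) + 1) * (((n + 1 : ℕ) : ℂ) + 1) * z (n + 1 + 1)) s) s := by
    intro s hs
    have h1 := (abs2_deriv (abs2_shift hzA) hs).const_add c
    have h2 : psi (fun n => ((n : ℂ) + 1) * ((((n + 1 : ℕ) : ℂ) + 1) * z (n + 1 + 1))) s =
        psi (fun n => ((n : ℂ) + 1) * (((n + 1 : ℕ) : ℂ) + 1) * z (n + 1 + 1)) s := by
      unfold psi
      refine tsum_congr fun n => ?_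
      ring
    rw [← h2]
    refine h1.congr_of_eventuallyEq ?_
    filter_upwards [isOpen_ball.mem_nhds (mem_ball_zero_iff.2 hs)] with x hx
    exact (hd1 x (mem_ball_zero_iff.1 hx)).deriv
  have hn1 : ∀ n : ℕ, ‖(n : ℂ) + 1‖ = (n : ℝ) + 1 := by
    intro n
    have : ((n : ℂ) + 1) = (((n : ℝ) + 1 : ℝ) : ℂ) := by push_cast; rfl
    rw [this, Complex.norm_real, Real.norm_of_nonneg (by positivity)]
  refine ⟨?_, ?_, ?_, ?_⟩
  · rw [hpsi 0 (by simp), mul_zero, zero_add]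
    unfold psi
    rw [tsum_eq_single 0 (fun n hn => by simp [hn])]
    simp [hz, hD.y0]
  · intro s hs
    exact (hd1 s (mem_ball_zero_iff.1 hs)).differentiableAt.differentiableWithinAt
  · rw [(hd1 0 (by simp)).deriv]
    unfold psi
    rw [tsum_eq_single 0 (fun n hn => by simp [hn])]
    simp [hz]
  · intro s hs
    have hs' : ‖s‖ < 2 := by linarith
    have hp : ∀ n : ℕ, ‖s‖ ^ n ≤ (3 / 2) ^ n := fun n => pow_le_pow_left₀ (norm_nonneg _) hs n
    refine ⟨?_, ?_, ?_⟩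
    · rw [hpsi s hs', add_sub_cancel_left]
      refine (psi_bound hs2 fun n => ?_).trans hM
      exact mul_le_mul_of_nonneg_left (pow_le_pow_left₀ (norm_nonneg _) hs'.le n) (norm_nonneg _)
    · rw [(hd1 s hs').deriv, add_sub_cancel_left]
      have h1 : Summable fun n => ‖z (n + 1)‖ * 2 ^ (n + 1) :=
        (summable_nat_add_iff (f := fun n => ‖z n‖ * 2 ^ n) 1).2 hs2
      refine (psi_bound h1 fun n => ?_).trans (le_trans ?_ hM)
      · rw [norm_mul, hn1]
        calc ((n : ℝ) + 1) * ‖z (n + 1)‖ * ‖s‖ ^ n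
            ≤ ((n : ℝ) + 1) * ‖z (n + 1)‖ * (3 / 2) ^ n :=
              mul_le_mul_of_nonneg_left (hp n) (by positivity)
          _ = ‖z (n + 1)‖ * (((n : ℝ) + 1) * (3 / 2) ^ n) := by ring
          _ ≤ _ := mul_le_mul_of_nonneg_left (num1 n) (norm_nonneg _)
      · rw [hs2.tsum_eq_zero_add]
        have : 0 ≤ ‖z 0‖ * 2 ^ 0 := by positivity
        linarith
    · rw [(hd2 s hs').deriv]
      have h1 : Summable fun n => ‖z (n + 2)‖ * 2 ^ (n + 2) :=
        (summable_nat_add_iff (f := fun n => ‖z n‖ * 2 ^ n) 2).2 hs2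
      have h2 : ∑' n, 3 * (‖z (n + 2)‖ * 2 ^ (n + 2)) ≤ 3 / (1000 * k) := by
        rw [tsum_mul_left]
        have h3 := hs2.sum_add_tsum_nat_add 2
        have h4 : 0 ≤ ∑ i ∈ Finset.range 2, ‖z i‖ * 2 ^ i :=
          Finset.sum_nonneg fun _ _ => by positivity
        have h5 : (3 : ℝ) / (1000 * k) = 3 * (1 / (1000 * k)) := by ring
        rw [h5]
        linarith
      refine (psi_bound (h1.mul_left 3) fun n => ?_).trans h2
      have h3 : ‖((n + 1 : ℕ) : ℂ) + 1‖ = (n : ℝ) + 2 := by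
        rw [hn1]
        push_cast
        ring
      rw [norm_mul, norm_mul, hn1, h3]
      calc ((n : ℝ) + 1) * (n + 2) * ‖z (n + 1 + 1)‖ * ‖s‖ ^ n
          ≤ ((n : ℝ) + 1) * (n + 2) * ‖z (n + 1 + 1)‖ * (3 / 2) ^ n :=
            mul_le_mul_of_nonneg_left (hp n) (by positivity)
        _ = ‖z (n + 2)‖ * (((n : ℝ) + 1) * (n + 2) * (3 / 2) ^ n) := by ring
        _ ≤ ‖z (n + 2)‖ * (3 * 2 ^ (n + 2)) :=
            mul_le_mul_of_nonneg_left (num2 n) (norm_nonneg _)
        _ = 3 * (‖z (n + 2)‖ * 2 ^ (n + 2)) := by ring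

end Pool.Agent.H61.CVs
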