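import Pool.Graph.R_pool_sql_team_seeded_3997aac3.Q79.CV.C6
import Pool.Agent.H61.CVs.Stm

set_option autoImplicit false

open MeasureTheory Set Filter Topology Metric
open scoped ContDiff RealInnerProductSpace ComplexConjugate NNReal

namespace Pool.Agent.H61.CVs

open Pool.Agent.Q61.CV Pool.Agent.Q79.CV

set_option linter.unusedSectionVars false

variable [Sg]

theorem c6 : S_C6 := by
  obtain ⟨h1, h2⟩ := exp_tenth
  obtain ⟨h3, h4⟩ := exp_neg_tenth
  have hk : kp = 1 / 10 := rfl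
  have s0 := sg_pos
  have s1 := sg_le
  have hs : 0 < 1 - sg := by linarith
  have hC : Real.cosh (1 / 10) = (Real.exp (1 / 10) + Real.exp (-(1 / 10))) / 2 :=
    Real.cosh_eq _
  have hS : Real.sinh (1 / 10) = (Real.exp (1 / 10) - Real.exp (-(1 / 10))) / 2 :=
    Real.sinh_eq _
  obtain ⟨C, hC'⟩ : ∃ C, C = Real.cosh (1 / 10) := ⟨_, rfl⟩
  obtain ⟨S, hS'⟩ : ∃ S, S = Real.sinh (1 / 10) := ⟨_, rfl⟩
  have hC0 : 1.00495 ≤ C := by
    rw [hC', hC]
    norm_num at h1 h3 ⊢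
    linarith
  have hC1 : C ≤ 1.00505 := by
    rw [hC', hC]
    norm_num at h2 h4 ⊢
    linarith
  have hS0 : 0.1 ≤ S := by
    rw [hS', hS]
    norm_num at h1 h4 ⊢
    linarith
  have hS1 : S ≤ 0.1002 := by
    rw [hS', hS]
    norm_num at h2 h3 ⊢
    linarith
  have hY : Y1 = 2 * (C + sg * S) / (1 - sg) := by
    unfold Y1
    rw [hk, hC', hS']
    ring
  refine ⟨?_, ?_, ?_, ?_⟩
  · rw [hY, lt_div_iff₀ hs]
    have h5 : 0 ≤ sg * S := mul_nonneg s0.le (by linarith)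
    linarith
  · rw [hY, div_lt_iff₀ hs]
    have h5 : sg * S ≤ 1 / 5 * 0.1002 := mul_le_mul s1 hS1 (by linarith) (by norm_num)
    norm_num at h5 hC1 ⊢
    linarith
  · rw [hk]
    norm_num at h3 ⊢
    linarith
  · rw [hk]
    norm_num at h4 ⊢
    linarith

end Pool.Agent.H61.CVs
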