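import Pool.Agent.H61.CVs.Stm

/-! # The nonlinear equation in the weighted Wiener algebra, for every `σ` in `(0, 1/5]` -/

open Set Filter Topology
open scoped ComplexConjugate
open Pool.Agent.Helper87.VT (TW tau sBB eB wt)

namespace Pool.Agent.H61.CVs

open Pool.Agent.Q61.CV

noncomputable section

variable [Sg]

section defs

variable {B : Type} [NormedCommRing B] [NormedAlgebra ℂ B]

variable [CompleteSpace B] (T : TW ℂ B)

/-- The nonlinear map: the equation of the interface is `co m (NB T k x) = co m (XB T x)` for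
`m ≠ 0`. -/
def NB (k : ℕ) (x : B) : B :=
  (k : ℂ) • (ex (-((1 / (k : ℂ)) • ((2 * kp : ℂ) • (1 : B) + XB T x))) *
      (QB T k x * sBB T (QB T k x))) + XB T x - (2 : ℂ) • (RB T k x + sBB T (RB T k x)) -
    ((4 * k / (1 - sg) : ℝ) : ℂ) • (B1 k (T.co 1 x) • tau T (-1) +
      conj (B1 k (T.co 1 x)) • tau T 1 + (B2 k : ℂ) • (tau T 2 + tau T (-2)))

end defs

/-- N1: Lipschitz bound for `N`. -/
def S_N1 : Prop := ∃ C : ℝ, ∀ {B : Type} [NormedCommRing B] [NormedAlgebra ℂ B] [CompleteSpace B]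
  (T : TW ℂ B) (k : ℕ), 1 ≤ k → ∀ x y : B, ‖x‖ ≤ 1 → ‖y‖ ≤ 1 →
    ‖NB T k x - NB T k y‖ ≤ C / (k : ℝ) * ‖x - y‖

/-- N0: the value at `0`. -/
def S_N0 : Prop := ∃ C : ℝ, ∀ {B : Type} [NormedCommRing B] [NormedAlgebra ℂ B] [CompleteSpace B]
  (T : TW ℂ B) (P : B →L[ℂ] B), IsProj T P → ∀ k : ℕ, 1 ≤ k →
    ‖P (NB T k 0) - ((Y1 : ℂ) / k) • tau T 1‖ ≤ C / (k : ℝ) ^ 2

/-- NS: symmetry of `N`. -/
def S_NS : Prop := ∀ {B : Type} [NormedCommRing B] [NormedAlgebra ℂ B] [CompleteSpace B]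
  (T : TW ℂ B) (k : ℕ) (x : B), sBB T (NB T k x) = NB T k x

/-- FIX: the fixed point. -/
def S_FIX : Prop := ∀ᶠ k : ℕ in atTop, ∀ {B : Type} [NormedCommRing B] [NormedAlgebra ℂ B]
  [CompleteSpace B] (T : TW ℂ B) (P : B →L[ℂ] B), IsProj T P →
    ∃ x : B, P (NB T k x) = x ∧ ‖x - ((Y1 : ℂ) / k) • tau T 1‖ ≤ 1 / (1000 * k)

/-- EV: evaluation of the fixed point. -/
def S_EV : Prop := ∀ {B : Type} [NormedCommRing B] [NormedAlgebra ℂ B] [CompleteSpace B]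
  (T : TW ℂ B) (P : B →L[ℂ] B), IsProj T P → ∀ (k : ℕ) (x : B), 1 ≤ k → P (NB T k x) = x →
    ‖x - ((Y1 : ℂ) / k) • tau T 1‖ ≤ 1 / (1000 * k) →
    ∃ A : ℝ, Dat k (fun n => T.co n x) A

end

end Pool.Agent.H61.CVs
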