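import Pool.Graph.R_pool_sql_team_seeded_3997aac3.Q79.CV.QR
import Pool.Agent.H61.CVs.C6
import Pool.Agent.H61.CVs.Wie

set_option autoImplicit false

open Set Filter Topology
open scoped ComplexConjugate NNReal
open Pool.Agent.Helper87.VT (TW tau sBB eB wt tau_norm)

namespace Pool.Agent.H61.CVs

open Pool.Agent.Q61.CV Pool.Agent.Q79.CV

set_option linter.unusedSectionVars false

variable [Sg]

/-- A contraction of the unit ball has a fixed point. -/
theorem fix_ball {B : Type} [NormedAddCommGroup B] [CompleteSpace B] (F : B → B)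
    (hF : ∀ x y : B, ‖x‖ ≤ 1 → ‖y‖ ≤ 1 → ‖F x - F y‖ ≤ 1 / 2 * ‖x - y‖) (h0 : ‖F 0‖ ≤ 1 / 2) :
    ∃ x, ‖x‖ ≤ 1 ∧ F x = x := by
  have hmem : ∀ x : B, x ∈ Metric.closedBall (0 : B) 1 ↔ ‖x‖ ≤ 1 := fun x =>
    mem_closedBall_zero_iff
  have hmaps : MapsTo F (Metric.closedBall (0 : B) 1) (Metric.closedBall (0 : B) 1) := by
    intro x hx
    rw [hmem] at hx ⊢
    have h1 := hF x 0 hx (by simp)
    rw [sub_zero] at h1
    have h2 : F x = (F x - F 0) + F 0 := by abel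
    rw [h2]
    refine (norm_add_le _ _).trans ?_
    linarith
  have hc : ContractingWith (1 / 2 : ℝ≥0) (hmaps.restrict F _ _) := by
    refine ⟨by
      rw [← NNReal.coe_lt_coe]
      norm_num, LipschitzWith.of_dist_le_mul fun x y => ?_⟩
    have hx := (hmem x.1).1 x.2
    have hy := (hmem y.1).1 y.2
    have h1 := hF x.1 y.1 hx hy
    rw [Subtype.dist_eq, Subtype.dist_eq, dist_eq_norm, dist_eq_norm]
    have h2 : ((1 / 2 : ℝ≥0) : ℝ) = 1 / 2 := by norm_num
    rw [h2]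
    exact h1
  obtain ⟨x, hx, hfix, -⟩ := hc.exists_fixedPoint' Metric.isClosed_closedBall.isComplete
    hmaps (x := 0) (by simp) (edist_ne_top _ _)
  exact ⟨x, (hmem x).1 hx, hfix⟩

/-- CV-39 -/
theorem fix' (h1 : S_N1) (h0 : S_N0) : S_FIX := by
  obtain ⟨C1, h1⟩ := h1
  obtain ⟨C0, h0⟩ := h0
  obtain ⟨y1, y2, -, -⟩ := c6
  set M : ℝ := 6 + |C0| with hM
  have hM0 : 0 < M := by positivity
  filter_upwards [eventually_ge_atTop 1,
    tendsto_natCast_atTop_atTop.eventually_ge_atTop (2 * |C1| : ℝ),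
    tendsto_natCast_atTop_atTop.eventually_ge_atTop (2 * M : ℝ),
    tendsto_natCast_atTop_atTop.eventually_ge_atTop (1000 * (2 * |C1| * M + |C0|) : ℝ)]
    with k hk hk1 hk2 hk3
  intro B _ _ _ T P hP
  have hk0 : (0 : ℝ) < k := by exact_mod_cast hk
  have hkR : (1 : ℝ) ≤ k := by exact_mod_cast hk
  have e1 : |C1| / k ≤ 1 / 2 := by
    rw [div_le_iff₀ hk0]
    linarith
  have hlip : ∀ x y : B, ‖x‖ ≤ 1 → ‖y‖ ≤ 1 →
      ‖P (NB T k x) - P (NB T k y)‖ ≤ |C1| / k * ‖x - y‖ := by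
    intro x y hx hy
    rw [← map_sub]
    refine (hP.norm _).trans ((h1 T k hk x y hx hy).trans ?_)
    exact mul_le_mul_of_nonneg_right (div_le_div_of_nonneg_right (le_abs_self _) hk0.le)
      (norm_nonneg _)
  have hz := h0 T P hP k hk
  have hz' : ‖P (NB T k 0) - ((Y1 : ℂ) / k) • tau T 1‖ ≤ |C0| / (k : ℝ) ^ 2 :=
    hz.trans (div_le_div_of_nonneg_right (le_abs_self _) (by positivity))
  have hzk : |C0| / (k : ℝ) ^ 2 ≤ |C0| / k :=
    div_le_div_of_nonneg_left (abs_nonneg _) hk0 (by nlinarith)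
  have hY : ‖((Y1 : ℂ) / k) • tau T 1‖ ≤ 6 / k := by
    rw [norm_smul, tau1, norm_div, Complex.norm_real, Complex.norm_natCast,
      Real.norm_of_nonneg (by linarith)]
    have : 6 / (k : ℝ) = (6 / 2) / k * 2 := by ring
    rw [this]
    refine mul_le_mul_of_nonneg_right (div_le_div_of_nonneg_right ?_ hk0.le) (by norm_num)
    linarith
  have hF0 : ‖P (NB T k 0)‖ ≤ M / k := by
    have e : P (NB T k 0) = (P (NB T k 0) - ((Y1 : ℂ) / k) • tau T 1) +
        ((Y1 : ℂ) / k) • tau T 1 := by abel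
    rw [e]
    refine (norm_add_le _ _).trans ?_
    have e2 : M / k = |C0| / k + 6 / k := by
      rw [hM]
      ring
    rw [e2]
    exact add_le_add (hz'.trans hzk) hY
  have hMk : M / k ≤ 1 / 2 := by
    rw [div_le_iff₀ hk0]
    linarith
  obtain ⟨x, hx1, hx2⟩ := fix_ball (fun x => P (NB T k x))
    (fun x y hx hy => (hlip x y hx hy).trans (mul_le_mul_of_nonneg_right e1 (norm_nonneg _)))
    (hF0.trans hMk)
  have hx2' : P (NB T k x) = x := hx2
  refine ⟨x, hx2', ?_⟩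
  have l1 := hlip x 0 hx1 (by simp)
  rw [sub_zero, hx2'] at l1
  have l2 : ‖x‖ ≤ 2 * (M / k) := by
    have e : x = (x - P (NB T k 0)) + P (NB T k 0) := by abel
    have e3 : ‖x‖ ≤ ‖x - P (NB T k 0)‖ + ‖P (NB T k 0)‖ := by
      calc ‖x‖ = ‖(x - P (NB T k 0)) + P (NB T k 0)‖ := by rw [← e]
        _ ≤ _ := norm_add_le _ _
    have e4 : |C1| / k * ‖x‖ ≤ 1 / 2 * ‖x‖ := mul_le_mul_of_nonneg_right e1 (norm_nonneg _)
    linarith
  have e5 : x - ((Y1 : ℂ) / k) • tau T 1 = (x - P (NB T k 0)) +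
      (P (NB T k 0) - ((Y1 : ℂ) / k) • tau T 1) := by abel
  rw [e5]
  refine (norm_add_le _ _).trans ?_
  have l3 : ‖x - P (NB T k 0)‖ ≤ |C1| / k * (2 * (M / k)) :=
    l1.trans (mul_le_mul_of_nonneg_left l2 (by positivity))
  refine (add_le_add l3 hz').trans ?_
  have e6 : |C1| / k * (2 * (M / k)) + |C0| / (k : ℝ) ^ 2 = (2 * |C1| * M + |C0|) / (k : ℝ) ^ 2 := by
    field_simp
  rw [e6, div_le_div_iff₀ (by positivity) (by positivity)]
  nlinarith

end Pool.Agent.H61.CVs
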