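import Pool.Graph.R_pool_sql_team_seeded_3997aac3.Q61.CV.Def
import Pool.Graph.R_pool_sql_team_seeded_3997aac3.Q61.CV.Stm
import Pool.Graph.R_pool_sql_team_seeded_3997aac3.Q61.CV.Wie
import Pool.Graph.R_pool_sql_team_seeded_3997aac3.Q79.CV.Inj
import Pool.Graph.R_pool_sql_team_seeded_3997aac3.Q79.CV.Inv
import Pool.Graph.R_pool_sql_team_seeded_3997aac3.Q79.CV.Dom
import Pool.Graph.R_pool_sql_team_seeded_3997aac3.Q79.CV.CVa
import Pool.Graph.R_pool_sql_team_seeded_3997aac3.Q79.CV.CVb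
import Pool.Graph.R_pool_sql_team_seeded_3997aac3.Q79.CV.CVc
import Pool.Graph.R_pool_sql_team_seeded_3997aac3.Q79.CV.Glue
import Pool.Graph.R_pool_sql_team_seeded_3997aac3.Q79.CV.GL2
import Pool.Graph.R_pool_sql_team_seeded_3997aac3.Q79.CV.Weak
import Pool.Graph.R_pool_sql_team_seeded_3997aac3.Q79.CV.TrBas
import Pool.Graph.R_pool_sql_team_seeded_3997aac3.Q79.CV.TrC
import Pool.Graph.R_pool_sql_team_seeded_3997aac3.Q79.CV.C1
import Pool.Graph.R_pool_sql_team_seeded_3997aac3.Q79.CV.C5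
import Pool.Graph.R_pool_sql_team_seeded_3997aac3.Q79.CV.C6
import Pool.Graph.R_pool_sql_team_seeded_3997aac3.Q79.CV.C8
import Pool.Graph.R_pool_sql_team_seeded_3997aac3.Q79.CV.C9
import Pool.Graph.R_pool_sql_team_seeded_3997aac3.Q79.CV.C10
import Pool.Graph.R_pool_sql_team_seeded_3997aac3.Q79.CV.C11
import Pool.Graph.R_pool_sql_team_seeded_3997aac3.Q79.CV.C12
import Pool.Graph.R_pool_sql_team_seeded_3997aac3.Q79.CV.E
import Pool.Graph.R_pool_sql_team_seeded_3997aac3.Q79.CV.K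
import Pool.Graph.R_pool_sql_team_seeded_3997aac3.Q79.CV.QR
import Pool.Graph.R_pool_sql_team_seeded_3997aac3.Q79.CV.N1
import Pool.Graph.R_pool_sql_team_seeded_3997aac3.Q79.CV.N0b
import Pool.Graph.R_pool_sql_team_seeded_3997aac3.Q79.CV.Fix
import Pool.Graph.R_pool_sql_team_seeded_3997aac3.Q79.CV.EV
import Pool.Agent.H61.CVs.EV
import Pool.Agent.H61.CVs.C5
import Pool.Agent.H61.CVs.C9
import Pool.Agent.H61.CVs.C10
import Pool.Agent.H61.CVs.C11

/-! # MP_8dfb46_an for every conductivity in `(0, 1/5]`: the assembly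
(after the library's `MP_8dfb46_an.ConvexCoreNonconvex`) -/

set_option linter.unusedSectionVars false

open MeasureTheory Set Filter Topology Metric
open scoped ContDiff RealInnerProductSpace ComplexConjugate NNReal

namespace Pool.Agent.H61.CVs

open Pool.Agent.Q61.CV Pool.Agent.Q79.CV
open Pool.Agent.Helper87.VT (exists_TWc)

variable [Sg]

/-- The nonlinear equation has a solution for all large `k`. -/
theorem fp : S_FP := by
  have hEP : S_EP := ep' e1' e3'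
  have hQ : S_QQ := qq' k' hEP
  have hR : S_RL := rl' k' hEP
  have hN1 : S_N1 := n1' e1' e2' e3' e4' k' hQ hR
  have hN0 : S_N0 := n0' e2' k'
  have hF : S_FIX := fix' hN1 hN0
  have hEV : S_EV := ev' e5' (ns' e5')
  obtain ⟨B, i1, i2, i3, ⟨T⟩⟩ := exists_TWc
  obtain ⟨P, hP⟩ := pr' T
  filter_upwards [hF, eventually_ge_atTop 1] with k hk hk1
  obtain ⟨x, hx, hx2⟩ := hk T P hP
  obtain ⟨A, hA⟩ := hEV T P hP k x hk1 hx hx2
  exact ⟨_, A, hA⟩

theorem main : ∃ (D Ω : Set ℂ), Convex ℝ D ∧ IsSolution sg D Ω ∧ ¬ Convex ℝ Ω := by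
  have hI : S_INV := inv inj
  have hD : S_DOM := dom inj hI
  have hG : S_GL2 := gl2 inj hI glue
  have hTR : S_TR := tr hI hD ext (w wa wb) (tra inj hI hD hG) (trb inj hI hD hG) (trc hI hD)
    (trd inj hI hD)
  have h7 : S_C7 := c7 c1
  obtain ⟨k, h8, h9, h10, h12, hfp, hk⟩ := ((c8 c1 c5).and ((c9 c1 c5).and ((c10 c5).and
    ((c12 inj hD h7).and (fp.and (eventually_ge_atTop 20)))))).exists
  obtain ⟨y, A, hDat⟩ := hfp
  obtain ⟨g1, g2, g3, g4, g5⟩ := h8 y A hDat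
  obtain ⟨h, hh1, hh2⟩ := h10 y A hDat
  have hk1 : 1 ≤ k := by omega
  have hk0 : (0 : ℝ) < k := by exact_mod_cast hk1
  have hR1 : 1 < RR k := by
    unfold RR
    have : (0 : ℝ) < 1 / (4 * k) := by positivity
    linarith
  have hR2 : RR k ≤ 1 + 1 / k := by
    unfold RR
    have : (1 : ℝ) / (4 * k) ≤ 1 / k := by
      apply one_div_le_one_div_of_le hk0
      linarith
    linarith
  have hconv : Convex ℝ (core (EE k) (Th k y)) :=
    cvc hD (RR k) (fun ζ => EE k (Th k y ζ)) hR1 g2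
      (cvb cva (RR k) (fun ζ => EE k (Th k y ζ)) hR1 g2 (h9 y A hDat))
  have hvol : volume (frontier (core (EE k) (Th k y))) = 0 := hconv.addHaar_frontier volume
  have hball : ∀ ζ : ℂ, ‖ζ‖ = 1 → ζ ∈ ball (0 : ℂ) (RR k) := by
    intro ζ hζ
    rw [mem_ball_zero_iff, hζ]
    exact hR1
  have hne : ∀ ζ : ℂ, ‖ζ‖ = 1 → ζ ≠ 0 := by
    intro ζ hζ h0
    rw [h0, norm_zero] at hζ
    exact zero_ne_one hζ
  have hS : Setup sg (cc k) (RR k) (EE k) (Th k y) (HH k) h :=
    { σ0 := sg_pos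
      R1 := hR1
      goodE := fun z hz => h7 k hk z (ball_subset_ball hR2 hz)
      goodΘ := g1
      goodF := g2
      Θ0 := g3
      Θmap := g4
      ΘR := g5
      Hd := fun η _ hη0 => (c2 k η hk1 hη0).1
      hd := hh1
      im := by
        intro ζ hζ
        rw [hh2 ζ (hball ζ hζ) (hne ζ hζ), Complex.add_im, (c11 k y A hk1 hDat ζ hζ).1, add_zero]
      re := by
        intro ζ hζ
        rw [hh2 ζ (hball ζ hζ) (hne ζ hζ)]
        exact (c11 k y A hk1 hDat ζ hζ).2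
      bd := fun η hη => c3 k η hk1 hη
      nm := fun η hη => c4 k η hk1 hη }
  obtain ⟨r1, r2, r3, r4⟩ := hTR sg (cc k) (RR k) (EE k) (Th k y) (HH k) h hS hvol
  exact ⟨core (EE k) (Th k y), outer (EE k), hconv, ⟨r1, r2, r3, cc k, r4⟩, h12⟩


end Pool.Agent.H61.CVs
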