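import Pool.Agent.H61.CVs.N0

set_option autoImplicit false

open Set Filter Topology
open scoped ComplexConjugate
open Pool.Agent.Helper87.VT (TW tau sBB eB wt tau_norm)

namespace Pool.Agent.H61.CVs

open Pool.Agent.Q61.CV Pool.Agent.Q79.CV

set_option linter.unusedSectionVars false

variable [Sg]

theorem EF_facts : 0 < Real.exp (-kp) ∧ Real.exp (-kp) ≤ 1 ∧ 0 < Real.exp kp ∧
    Real.exp kp ≤ 1.2 ∧ Real.exp (2 * kp) ≤ 2 ∧
    Y1 = Real.exp (-kp) - Real.exp kp + 2 * (1 / (1 - sg)) * Real.exp kp := by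
  refine ⟨Real.exp_pos _, ?_, Real.exp_pos _, ?_, ?_, ?_⟩
  · rw [Real.exp_le_one_iff]
    unfold kp
    norm_num
  · have h4 := Real.exp_bound' (x := kp) (by unfold kp; norm_num) (by unfold kp; norm_num) (n := 3)
      (by norm_num)
    refine h4.trans ?_
    unfold kp
    norm_num [Finset.sum_range_succ, Nat.factorial]
  · have h4 := Real.exp_bound' (x := 2 * kp) (by unfold kp; norm_num) (by unfold kp; norm_num)
      (n := 3) (by norm_num)
    refine h4.trans ?_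
    unfold kp
    norm_num [Finset.sum_range_succ, Nat.factorial]
  · unfold Y1
    rw [Real.cosh_eq, Real.sinh_eq]
    have := sg_facts.1.ne'
    field_simp
    ring

theorem c1_bound (hK : S_K) {k : ℕ} (hk : 1 ≤ k) {a α β δ ε b c : ℝ}
    (ha : a = Real.exp (-(2 * kp / k)))
    (hα : α = e1 k * Real.exp (-kp)) (hβ : β = e2 k * Real.exp (-kp) ^ 2)
    (hδ : δ = q1 k * Real.exp (-kp)) (hε : ε = qm1 k * Real.exp kp)
    (hb : b = qm1 k / k * Real.exp kp) (hc : c = 4 * k / (1 - sg)) :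
    |k * a * (α + α * β) - 2 * (δ - ε) - c * b - Y1 / k| ≤ 50 / (k : ℝ) ^ 2 := by
  have hk0 : (0 : ℝ) < k := by exact_mod_cast hk
  have hk1 : (1 : ℝ) ≤ k := by exact_mod_cast hk
  obtain ⟨a1, a2, a3, a4, a5, -, a7, -, a9, -⟩ := hK k hk
  obtain ⟨E0, E1, F0, F1, -, hY⟩ := EF_facts
  obtain ⟨b0, b1, b2⟩ := a_facts hk
  rw [← ha] at b0 b1 b2
  set E := Real.exp (-kp) with hE
  set F := Real.exp kp with hF
  set s : ℝ := 1 / (1 - sg) with hs
  have hs0 : 0 < s := by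
    rw [hs]
    exact div_pos one_pos sg_facts.1
  have hs1 : s ≤ 1.25 := by
    rw [hs, div_le_iff₀ sg_facts.1]
    have := sg_le
    linarith
  set i : ℝ := 1 / k with hi
  have hi0 : 0 < i := by positivity
  have hi1 : i ≤ 1 := by
    rw [hi, div_le_one hk0]
    exact hk1
  have hik : i * k = 1 := by
    rw [hi]
    field_simp
  have d2 : ∀ r : ℝ, r / (k : ℝ) = r * i := by
    intro r
    rw [hi]
    ring
  have hβ0 : 0 ≤ β := by
    rw [hβ]
    positivity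
  have hβ1 : β ≤ i := by
    have v1 : E ^ 2 ≤ 1 := pow_le_one₀ E0.le E1
    have v2 : (1 : ℝ) / k ^ 3 ≤ i := by
      rw [hi]
      refine one_div_le_one_div_of_le hk0 ?_
      nlinarith [mul_pos hk0 hk0, mul_self_nonneg ((k : ℝ) - 1)]
    rw [hβ]
    calc e2 k * E ^ 2 ≤ e2 k * 1 := mul_le_mul_of_nonneg_left v1 a4
      _ ≤ i := by
        rw [mul_one]
        exact a5.trans v2
  have hkp : 2 * kp / k = 0.2 * i := by
    rw [hi]
    unfold kp
    ring
  rw [hkp] at b2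
  rw [d2] at a3 a7 a9
  -- the identity
  have key : k * a * (α + α * β) - 2 * (δ - ε) - c * b - Y1 / k =
      i * (E * ((k : ℝ) ^ 2 * e1 k * (a * (1 + β)) - 2) - 2 * E * (k * q1 k - 1 / 2) +
        2 * F * (k * qm1 k + 1 / 2) - 4 * s * F * (k * qm1 k + 1 / 2)) := by
    have hcb : c * b = 4 * s * (i * (k * qm1 k)) * F := by
      rw [hc, hb, hs, hi]
      have := sg_facts.1.ne'
      field_simp
    have h1 : i * (E * ((k : ℝ) ^ 2 * e1 k * (a * (1 + β)) - 2)) =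
        (i * k) * (k * e1 k * (a * (1 + β))) * E - 2 * i * E := by ring
    have h2 : i * (2 * E * (k * q1 k - 1 / 2)) = 2 * E * (i * k) * q1 k - i * E := by ring
    have h3 : i * (2 * F * (k * qm1 k + 1 / 2)) = 2 * F * (i * k) * qm1 k + i * F := by ring
    have h4 : i * (4 * s * F * (k * qm1 k + 1 / 2)) =
        4 * s * (i * (k * qm1 k)) * F + 2 * s * F * i := by ring
    have h5 : Y1 / k = i * (E - F + 2 * s * F) := by
      rw [d2, hY]
      ring
    have h6 : i * (E * ((k : ℝ) ^ 2 * e1 k * (a * (1 + β)) - 2) - 2 * E * (k * q1 k - 1 / 2) +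
        2 * F * (k * qm1 k + 1 / 2) - 4 * s * F * (k * qm1 k + 1 / 2)) =
        i * (E * ((k : ℝ) ^ 2 * e1 k * (a * (1 + β)) - 2)) - i * (2 * E * (k * q1 k - 1 / 2)) +
        i * (2 * F * (k * qm1 k + 1 / 2)) - i * (4 * s * F * (k * qm1 k + 1 / 2)) := by ring
    rw [h6, h1, h2, h3, h4, hik, hcb, h5, hα, hδ, hε]
    ring
  rw [key, abs_mul, abs_of_pos hi0]
  have hi2 : 50 / (k : ℝ) ^ 2 = i * (50 * i) := by
    rw [hi]
    field_simp
  rw [hi2]
  refine mul_le_mul_of_nonneg_left ?_ hi0.le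
  -- the four terms
  have ht1 : |a * (1 + β) - 1| ≤ 2 * i := by
    rw [abs_le]
    constructor
    · nlinarith
    · nlinarith
  have hab0 : 0 ≤ a * (1 + β) := by positivity
  have hab : a * (1 + β) ≤ 2 := by nlinarith
  have t1 : |E * ((k : ℝ) ^ 2 * e1 k * (a * (1 + β)) - 2)| ≤ 8 * i := by
    have h1 : (k : ℝ) ^ 2 * e1 k * (a * (1 + β)) - 2 =
        ((k : ℝ) ^ 2 * e1 k - 2) * (a * (1 + β)) + 2 * (a * (1 + β) - 1) := by ring
    rw [abs_mul, abs_of_pos E0, h1]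
    have h2 : |((k : ℝ) ^ 2 * e1 k - 2) * (a * (1 + β)) + 2 * (a * (1 + β) - 1)| ≤ 8 * i := by
      refine (abs_add_le _ _).trans ?_
      rw [abs_mul ((k : ℝ) ^ 2 * e1 k - 2) (a * (1 + β)), abs_mul 2 (a * (1 + β) - 1),
        abs_of_nonneg hab0, abs_of_pos (by norm_num : (0 : ℝ) < 2)]
      have h3 : |(k : ℝ) ^ 2 * e1 k - 2| * (a * (1 + β)) ≤ (2 * i) * 2 :=
        mul_le_mul a3 hab hab0 (by positivity)
      linarith
    calc E * |((k : ℝ) ^ 2 * e1 k - 2) * (a * (1 + β)) + 2 * (a * (1 + β) - 1)| ≤ 1 * (8 * i) :=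
          mul_le_mul E1 h2 (abs_nonneg _) zero_le_one
      _ = 8 * i := one_mul _
  have t2 : |2 * E * (k * q1 k - 1 / 2)| ≤ 8 * i := by
    rw [abs_mul, abs_of_pos (by positivity)]
    calc 2 * E * |k * q1 k - 1 / 2| ≤ (2 * 1) * (4 * i) :=
          mul_le_mul (mul_le_mul_of_nonneg_left E1 (by norm_num)) a7 (abs_nonneg _) (by norm_num)
      _ = 8 * i := by ring
  have t3 : |2 * F * (k * qm1 k + 1 / 2)| ≤ 9.6 * i := by
    rw [abs_mul, abs_of_pos (by positivity)]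
    calc 2 * F * |k * qm1 k + 1 / 2| ≤ (2 * 1.2) * (4 * i) :=
          mul_le_mul (mul_le_mul_of_nonneg_left F1 (by norm_num)) a9 (abs_nonneg _) (by norm_num)
      _ = 9.6 * i := by ring
  have t4 : |4 * s * F * (k * qm1 k + 1 / 2)| ≤ 24 * i := by
    rw [abs_mul, abs_of_pos (by positivity)]
    have h1 : 4 * s * F ≤ 4 * 1.25 * 1.2 :=
      mul_le_mul (mul_le_mul_of_nonneg_left hs1 (by norm_num)) F1 F0.le (by norm_num)
    calc 4 * s * F * |k * qm1 k + 1 / 2| ≤ (4 * 1.25 * 1.2) * (4 * i) :=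
          mul_le_mul h1 a9 (abs_nonneg _) (by norm_num)
      _ ≤ 24 * i := by
          norm_num
          linarith
  rw [abs_le] at t1 t2 t3 t4 ⊢
  obtain ⟨u1, u2⟩ := t1
  obtain ⟨u3, u4⟩ := t2
  obtain ⟨u5, u6⟩ := t3
  obtain ⟨u7, u8⟩ := t4
  constructor
  · norm_num at u5 ⊢
    linarith
  · norm_num at u6 ⊢
    linarith

theorem c2_bound (hK : S_K) {k : ℕ} (hk : 1 ≤ k) {a β γ η c g : ℝ}
    (ha : a = Real.exp (-(2 * kp / k))) (hβ : β = e2 k * Real.exp (-kp) ^ 2)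
    (hγ : γ = q2 k / 2 * Real.exp (-kp) ^ 2) (hη : η = qm2 k / 2 * Real.exp kp ^ 2)
    (hc : c = 4 * k / (1 - sg)) (hg : g = B2 k) :
    |k * a * β - 2 * (γ - η) - c * g| ≤ 10 / (k : ℝ) ^ 2 := by
  have hk0 : (0 : ℝ) < k := by exact_mod_cast hk
  have hk1 : (1 : ℝ) ≤ k := by exact_mod_cast hk
  obtain ⟨-, -, -, a4, a5, -, -, -, -, a10, a11, a12, a13⟩ := hK k hk
  obtain ⟨E0, E1, F0, F1, F2, -⟩ := EF_facts
  obtain ⟨b0, b1, -⟩ := a_facts hk
  rw [← ha] at b0 b1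
  set E := Real.exp (-kp) with hE
  set F := Real.exp kp with hF
  have hE2 : E ^ 2 ≤ 1 := pow_le_one₀ E0.le E1
  have hF2 : F ^ 2 ≤ 2 := by nlinarith
  set i : ℝ := 1 / (k : ℝ) ^ 2 with hi
  have hi0 : 0 < i := by positivity
  have i3 : 1 / (k : ℝ) ^ 3 ≤ i := by
    rw [hi]
    refine one_div_le_one_div_of_le (by positivity) ?_
    nlinarith [pow_pos hk0 2]
  have hi2 : 10 / (k : ℝ) ^ 2 = 10 * i := by
    rw [hi]
    ring
  rw [hi2]
  have u1 : 0 ≤ k * a * β := by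
    rw [hβ]
    positivity
  have u2 : k * a * β ≤ i := by
    rw [hβ]
    calc k * a * (e2 k * E ^ 2) ≤ k * 1 * (1 / (k : ℝ) ^ 3 * 1) := by
          refine mul_le_mul (mul_le_mul_of_nonneg_left b1 hk0.le) ?_ (by positivity) (by positivity)
          exact mul_le_mul a5 hE2 (by positivity) (by positivity)
      _ = i := by
          rw [hi]
          field_simp
  have u3 : 0 ≤ γ := by
    rw [hγ]
    positivity
  have u4 : 2 * γ ≤ i := by
    rw [hγ]
    calc 2 * (q2 k / 2 * E ^ 2) = q2 k * E ^ 2 := by ring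
      _ ≤ i * 1 := mul_le_mul a11 hE2 (by positivity) hi0.le
      _ = i := mul_one _
  have u5 : 0 ≤ η := by
    rw [hη]
    positivity
  have u6 : 2 * η ≤ 2 * i := by
    rw [hη]
    calc 2 * (qm2 k / 2 * F ^ 2) = qm2 k * F ^ 2 := by ring
      _ ≤ i * 2 := mul_le_mul (a13.trans i3) hF2 (by positivity) hi0.le
      _ = 2 * i := by ring
  have hcg : c * g = 2 * (1 / (1 - sg)) * qm2 k * Real.exp (2 * kp) := by
    rw [hc, hg]
    unfold B2
    have := sg_facts.1.ne'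
    field_simp
    ring
  have u7 : 0 ≤ c * g := by
    rw [hcg]
    have := sg_facts.1
    positivity
  have u8 : c * g ≤ 5 * i := by
    rw [hcg]
    have h1 : 2 * (1 / (1 - sg)) ≤ 2.5 := by
      rw [mul_one_div, div_le_iff₀ sg_facts.1]
      have := sg_le
      linarith
    have h2 : 0 ≤ 2 * (1 / (1 - sg)) := by
      have := sg_facts.1
      positivity
    calc 2 * (1 / (1 - sg)) * qm2 k * Real.exp (2 * kp) ≤ 2.5 * i * 2 := by
          refine mul_le_mul ?_ F2 (Real.exp_pos _).le (by positivity)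
          exact mul_le_mul h1 (a13.trans i3) a12 (by norm_num)
      _ ≤ 5 * i := by
          norm_num
          linarith
  rw [abs_le]
  constructor <;> linarith

/-- CV-37 -/
theorem n0' (h2 : S_E2) (hK : S_K) : S_N0 := by
  refine ⟨140, ?_⟩
  intro B _ _ _ T P hP k hk
  have hk0 : (0 : ℝ) < k := by exact_mod_cast hk
  rw [NB_zero h2 T (k := k) rfl rfl rfl rfl rfl rfl rfl rfl rfl rfl, P_NB_zero T hP]
  have h3 := c1_bound hK hk rfl rfl rfl rfl rfl rfl rfl
  have h4 := c2_bound hK hk rfl rfl rfl rfl rfl rfl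
  set c1 : ℝ := k * Real.exp (-(2 * kp / k)) * (e1 k * Real.exp (-kp) +
    e1 k * Real.exp (-kp) * (e2 k * Real.exp (-kp) ^ 2)) -
    2 * (q1 k * Real.exp (-kp) - qm1 k * Real.exp kp) -
    4 * k / (1 - sg) * (qm1 k / k * Real.exp kp) with hc1
  set c2 : ℝ := k * Real.exp (-(2 * kp / k)) * (e2 k * Real.exp (-kp) ^ 2) -
    2 * (q2 k / 2 * Real.exp (-kp) ^ 2 - qm2 k / 2 * Real.exp kp ^ 2) -
    4 * k / (1 - sg) * B2 k with hc2
  have e : (c1 : ℂ) • tau T 1 + (c2 : ℂ) • tau T 2 - ((Y1 : ℂ) / k) • tau T 1 =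
      ((c1 - Y1 / k : ℝ) : ℂ) • tau T 1 + (c2 : ℂ) • tau T 2 := by
    push_cast
    module
  rw [e]
  refine (norm_add_le _ _).trans ?_
  rw [norm_smul, norm_smul, tau1, tau2, Complex.norm_real, Complex.norm_real, Real.norm_eq_abs,
    Real.norm_eq_abs]
  have h5 : (140 : ℝ) / (k : ℝ) ^ 2 = 50 / (k : ℝ) ^ 2 * 2 + 10 / (k : ℝ) ^ 2 * 4 := by ring
  rw [h5]
  exact add_le_add (mul_le_mul_of_nonneg_right h3 (by norm_num))
    (mul_le_mul_of_nonneg_right h4 (by norm_num))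

/-- CV-38 -/
theorem ns' (h5 : S_E5) : S_NS := by
  intro B _ _ _ T k x
  have hX : sBB T (XB T x) = XB T x := by
    unfold XB
    rw [map_add, Pool.Agent.Helper87.VT.sBB_sBB, add_comm]
  have hk : conj (k : ℂ) = k := Complex.conj_natCast k
  have h2 : conj (2 : ℂ) = 2 := by
    have := Complex.conj_natCast 2
    simpa using this
  have hkp : conj (2 * (kp : ℂ)) = 2 * kp := by
    rw [map_mul, Complex.conj_ofReal, h2]
  have h1 : sBB T (-((1 / (k : ℂ)) • ((2 * kp : ℂ) • (1 : B) + XB T x))) =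
      -((1 / (k : ℂ)) • ((2 * kp : ℂ) • (1 : B) + XB T x)) := by
    rw [map_neg, Pool.Agent.Helper87.VT.sBB_smul, map_add, Pool.Agent.Helper87.VT.sBB_smul,
      sBB_one, hX, hkp, map_div₀, hk, map_one (starRingEnd ℂ)]
  unfold NB
  rw [map_sub, map_sub, map_add, Pool.Agent.Helper87.VT.sBB_smul, Pool.Agent.Helper87.VT.sBB_mul,
    (h5 T _).1, h1, Pool.Agent.Helper87.VT.sBB_mul, Pool.Agent.Helper87.VT.sBB_sBB, hX, hk,
    Pool.Agent.Helper87.VT.sBB_smul, map_add, Pool.Agent.Helper87.VT.sBB_sBB,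
    Pool.Agent.Helper87.VT.sBB_smul, map_add, map_add, Pool.Agent.Helper87.VT.sBB_smul,
    Pool.Agent.Helper87.VT.sBB_smul, Pool.Agent.Helper87.VT.sBB_smul, map_add,
    Pool.Agent.Helper87.VT.sBB_tau, Pool.Agent.Helper87.VT.sBB_tau,
    Pool.Agent.Helper87.VT.sBB_tau, Pool.Agent.Helper87.VT.sBB_tau, Complex.conj_ofReal,
    Complex.conj_ofReal, Complex.conj_conj, neg_neg, neg_neg]
  rw [h2, mul_comm (sBB T (QB T k x)) (QB T k x), add_comm (sBB T (RB T k x)),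
    add_comm (tau T (-2)) (tau T 2),
    add_comm (conj (B1 k (T.co 1 x)) • tau T 1) (B1 k (T.co 1 x) • tau T (-1))]

end Pool.Agent.H61.CVs
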